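import Pool.Agent.Lib.StackLang.Basic

/-!
# Macros for the structured language on Boolean stacks

Natural numbers are kept in unary in the stacks.  `each c t p` runs `p` as many times as the
counter `c` says and restores `c` at the end; `Em a p s w n` says that the only effect of `p` on
the store `s` is that the word `w` is written, letter by letter, on the stack `a`.
-/

set_option autoImplicit false

namespace Pool.Agent.Lib.StackLang

open Function

variable {K : Type} [DecidableEq K]

/-- `p` turns `s` into `t` in at most `n` steps. -/
def EvalLe (p : Prog K) (s t : K → List Bool) (n : ℕ) : Prop := ∃ m ≤ n, Eval p s t m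

theorem EvalLe.mono {p : Prog K} {s t : K → List Bool} {m n : ℕ} (h : EvalLe p s t m)
    (hmn : m ≤ n) : EvalLe p s t n := by
  obtain ⟨k, hk, h⟩ := h
  exact ⟨k, hk.trans hmn, h⟩

theorem EvalLe.cast {p : Prog K} {s t t' : K → List Bool} {m n : ℕ} (h : EvalLe p s t m)
    (ht : t = t') (hmn : m ≤ n) : EvalLe p s t' n := by
  subst ht
  exact h.mono hmn

theorem EvalLe.seq {p q : Prog K} {s t u : K → List Bool} {m n : ℕ} (h1 : EvalLe p s t m)
    (h2 : EvalLe q t u n) : EvalLe (.seq p q) s u (m + n) := by
  obtain ⟨a, ha, h1⟩ := h1
  obtain ⟨b, hb, h2⟩ := h2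
  exact ⟨a + b, by omega, .seq h1 h2⟩

theorem EvalLe.skip (s : K → List Bool) : EvalLe .skip s s 1 := ⟨1, le_rfl, .skip s⟩

theorem EvalLe.push (k : K) (b : Bool) (s : K → List Bool) :
    EvalLe (.push k b) s (update s k (b :: s k)) 1 := ⟨1, le_rfl, .push k b s⟩

theorem EvalLe.pop (k : K) (s : K → List Bool) :
    EvalLe (.pop k) s (update s k (s k).tail) 1 := ⟨1, le_rfl, .pop k s⟩

theorem EvalLe.loop_stop {k : K} (p : Prog K) {s : K → List Bool} (h : (s k).head? ≠ some true) :
    EvalLe (.loop k p) s s 1 := ⟨1, le_rfl, .loop_stop p h⟩

theorem EvalLe.loop_step {k : K} {p : Prog K} {s t u : K → List Bool} {m n : ℕ}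
    (h : (s k).head? = some true) (h1 : EvalLe p (update s k (s k).tail) t m)
    (h2 : EvalLe (.loop k p) t u n) : EvalLe (.loop k p) s u (1 + (m + n)) := by
  obtain ⟨a, ha, h1⟩ := h1
  obtain ⟨b, hb, h2⟩ := h2
  exact ⟨1 + (a + b), by omega, .loop_step h h1 h2⟩

theorem EvalLe.drain_stop {k : K} (p q : Prog K) {s : K → List Bool} (h : s k = []) :
    EvalLe (.drain k p q) s s 1 := ⟨1, le_rfl, .drain_stop p q (by rw [h]; rfl)⟩

theorem EvalLe.drain_true {k : K} {p : Prog K} (q : Prog K) {s t u : K → List Bool} {m n : ℕ}
    {l : List Bool} (h : s k = true :: l) (h1 : EvalLe p (update s k l) t m)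
    (h2 : EvalLe (.drain k p q) t u n) : EvalLe (.drain k p q) s u (1 + (m + n)) := by
  obtain ⟨a, ha, h1⟩ := h1
  obtain ⟨b, hb, h2⟩ := h2
  exact ⟨1 + (a + b), by omega, .drain_true q (by rw [h]; rfl) (by rw [h]; exact h1) h2⟩

theorem EvalLe.drain_false {k : K} (p : Prog K) {q : Prog K} {s t u : K → List Bool} {m n : ℕ}
    {l : List Bool} (h : s k = false :: l) (h1 : EvalLe q (update s k l) t m)
    (h2 : EvalLe (.drain k p q) t u n) : EvalLe (.drain k p q) s u (1 + (m + n)) := by
  obtain ⟨a, ha, h1⟩ := h1
  obtain ⟨b, hb, h2⟩ := h2
  exact ⟨1 + (a + b), by omega, .drain_false p (by rw [h]; rfl) (by rw [h]; exact h1) h2⟩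

/-- The number `n` in unary. -/
abbrev tt (n : ℕ) : List Bool := List.replicate n true

theorem tt_succ (n : ℕ) : tt (n + 1) = true :: tt n := rfl

/-- Push a word; its first letter is on top at the end. -/
def pushL (k : K) : List Bool → Prog K
  | [] => .skip
  | b :: w => .seq (pushL k w) (.push k b)

theorem pushL_eval (k : K) (w : List Bool) (s : K → List Bool) :
    EvalLe (pushL k w) s (update s k (w ++ s k)) (w.length + 1) := by
  induction w with
  | nil => exact (EvalLe.skip s).cast (by simp) (by simp)
  | cons b w ih =>
    refine (ih.seq (EvalLe.push k b _)).cast ?_ (by simp)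
    simp

/-- Move the leading `true`s of `k` to `l`. -/
def move (k l : K) : Prog K := .loop k (.push l true)

theorem move_eval {k l : K} (hkl : k ≠ l) (n : ℕ) (r : List Bool) (hr : r.head? ≠ some true)
    (s : K → List Bool) (hs : s k = tt n ++ r) :
    EvalLe (move k l) s (update (update s k r) l (tt n ++ s l)) (2 * n + 1) := by
  induction n generalizing s with
  | zero =>
    have hs' : s k = r := by simpa using hs
    refine (EvalLe.loop_stop (.push l true) (by rw [hs']; exact hr)).cast ?_ (by simp)
    rw [← hs']
    simp
  | succ n ih =>
    have h1 : (s k).head? = some true := by rw [hs]; rfl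
    have h2 : (s k).tail = tt n ++ r := by rw [hs]; rfl
    have h3 := EvalLe.push l true (update s k (s k).tail)
    have h4 := ih (update (update s k (s k).tail) l
      (true :: (update s k (s k).tail) l)) (by simp [hkl, h2])
    refine (EvalLe.loop_step h1 h3 h4).cast ?_ (by omega)
    have h5 : tt (n + 1) ++ s l = tt n ++ true :: s l := by
      simp only [tt]
      rw [List.replicate_succ', List.append_assoc]
      rfl
    rw [h5]
    funext x
    by_cases hx : x = l
    · subst hx
      simp [hkl.symm]
    · by_cases hy : x = k
      · subst hy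
        simp [hx]
      · simp [hx, hy]

/-- Remove the leading `true`s of `k`. -/
def clear (k : K) : Prog K := .loop k .skip

theorem clear_eval {k : K} (n : ℕ) (s : K → List Bool) (hs : s k = tt n) :
    EvalLe (clear k) s (update s k []) (2 * n + 1) := by
  induction n generalizing s with
  | zero =>
    have hs' : s k = [] := by simpa using hs
    refine (EvalLe.loop_stop .skip (by rw [hs']; simp)).cast ?_ (by simp)
    rw [← hs']
    simp
  | succ n ih =>
    have h1 : (s k).head? = some true := by rw [hs]; rfl
    have h2 : (s k).tail = tt n := by rw [hs]; rfl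
    have h4 := ih (update s k (s k).tail) (by simp [h2])
    refine (EvalLe.loop_step h1 (EvalLe.skip _) h4).cast ?_ (by omega)
    simp

/-- Run `p` as often as the counter `c` says; `t` is an auxiliary stack. -/
def each (c t : K) (p : Prog K) : Prog K := .seq (.loop c (.seq (.push t true) p)) (move t c)

theorem each_aux {c t : K} (hct : c ≠ t) {p : Prog K} {B : ℕ} (n : ℕ)
    (G : ℕ → K → List Bool) (x0 : List Bool) (hx0 : x0.head? ≠ some true)
    (hp : ∀ i < n, ∀ x y, EvalLe p (update (update (G i) c x) t y)
      (update (update (G (i + 1)) c x) t y) B) (j : ℕ) (hj : j ≤ n) :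
    EvalLe (.loop c (.seq (.push t true) p)) (update (update (G (n - j)) c (tt j ++ x0)) t
      (tt (n - j))) (update (update (G n) c x0) t (tt n)) (j * (B + 2) + 1) := by
  induction j with
  | zero =>
    have e : update (update (G (n - 0)) c (tt 0 ++ x0)) t (tt (n - 0)) =
        update (update (G n) c x0) t (tt n) := by simp
    rw [e]
    exact (EvalLe.loop_stop _ (by simpa [hct] using hx0)).mono (by simp)
  | succ j ih =>
    have h2 := hp (n - (j + 1)) (by omega) (tt j ++ x0) (tt (n - j))
    have h3 := EvalLe.push t true (update (update (update (G (n - (j + 1))) c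
      (tt (j + 1) ++ x0)) t (tt (n - (j + 1)))) c (tt j ++ x0))
    have e1 : update (update (update (update (G (n - (j + 1))) c
        (tt (j + 1) ++ x0)) t (tt (n - (j + 1)))) c (tt j ++ x0)) t (true ::
          (update (update (update (G (n - (j + 1))) c
        (tt (j + 1) ++ x0)) t (tt (n - (j + 1)))) c (tt j ++ x0)) t) =
        update (update (G (n - (j + 1))) c (tt j ++ x0)) t (tt (n - j)) := by
      have e2 : tt (n - j) = true :: tt (n - (j + 1)) := by
        rw [← tt_succ]
        congr 1
        omega
      rw [e2]
      funext x
      by_cases hx : x = t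
      · subst hx
        simp [hct.symm]
      · by_cases hy : x = c
        · subst hy
          simp [hx]
        · simp [hx, hy]
    rw [e1] at h3
    have e3 : n - (j + 1) + 1 = n - j := by omega
    rw [e3] at h2
    have h4 := EvalLe.loop_step (k := c) (p := .seq (.push t true) p)
      (s := update (update (G (n - (j + 1))) c (tt (j + 1) ++ x0)) t (tt (n - (j + 1))))
      (by simp [hct, List.replicate_succ])
      (by
        have e4 : (update (update (G (n - (j + 1))) c (tt (j + 1) ++ x0)) t
            (tt (n - (j + 1))) c).tail = tt j ++ x0 := by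
          simp [hct, List.replicate_succ]
        rw [e4]
        exact h3.seq h2) (ih (by omega))
    refine h4.mono ?_
    rw [Nat.add_mul]
    omega

/-- The general rule for `each`. -/
theorem each_eval {c t : K} (hct : c ≠ t) {p : Prog K} {B : ℕ} (n : ℕ)
    (G : ℕ → K → List Bool)
    (hp : ∀ i < n, ∀ x y, EvalLe p (update (update (G i) c x) t y)
      (update (update (G (i + 1)) c x) t y) B) {s s' : K → List Bool}
    (hs : s = update (update (G 0) c (tt n)) t [])
    (hs' : s' = update (update (G n) c (tt n)) t []) :
    EvalLe (each c t p) s s' (n * (B + 4) + 2) := by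
  subst hs hs'
  have h1 := each_aux hct n G [] (by simp) hp n le_rfl
  rw [List.append_nil, Nat.sub_self] at h1
  have h2 := move_eval (k := t) (l := c) hct.symm n [] (by simp)
    (update (update (G n) c []) t (tt n)) (by simp)
  refine (h1.seq h2).cast ?_ ?_
  · funext x
    by_cases hx : x = t
    · subst hx
      simp [hct.symm]
    · by_cases hy : x = c
      · subst hy
        simp [hx]
      · simp [hx, hy]
  · rw [Nat.mul_add, Nat.mul_add]
    omega

/-- Whatever the content of the stack `a` is, `p` only writes the word `w` on the stack `a`, in at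
most `n` steps; the other stacks are as in `s`. -/
def Em (a : K) (p : Prog K) (s : K → List Bool) (w : List Bool) (n : ℕ) : Prop :=
  ∀ y, EvalLe p (update s a y) (update s a (w.reverse ++ y)) n

theorem Em.mono {a : K} {p : Prog K} {s : K → List Bool} {w : List Bool} {m n : ℕ}
    (h : Em a p s w m) (hmn : m ≤ n) : Em a p s w n := fun y => (h y).mono hmn

theorem Em.cast {a : K} {p : Prog K} {s : K → List Bool} {w w' : List Bool} {m n : ℕ}
    (h : Em a p s w m) (hw : w = w') (hmn : m ≤ n) : Em a p s w' n := by
  subst hw
  exact h.mono hmn

theorem Em.seq {a : K} {p q : Prog K} {s : K → List Bool} {w w' : List Bool} {m n : ℕ}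
    (h1 : Em a p s w m) (h2 : Em a q s w' n) : Em a (.seq p q) s (w ++ w') (m + n) := by
  intro y
  refine ((h1 y).seq (h2 (w.reverse ++ y))).cast ?_ le_rfl
  simp

theorem Em.run {a : K} {p : Prog K} {s : K → List Bool} {w : List Bool} {n : ℕ}
    (h : Em a p s w n) : EvalLe p s (update s a (w.reverse ++ s a)) n := by
  have h1 := h (s a)
  rwa [update_eq_self] at h1

/-- Write the word `w`. -/
def emit (a : K) (w : List Bool) : Prog K := pushL a w.reverse

theorem emit_em (a : K) (w : List Bool) (s : K → List Bool) :
    Em a (emit a w) s w (w.length + 1) := by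
  intro y
  have h := pushL_eval a w.reverse (update s a y)
  rw [List.length_reverse] at h
  refine EvalLe.cast h ?_ le_rfl
  simp

/-- The word `w` repeated `n` times. -/
def rep (n : ℕ) (w : List Bool) : List Bool := (List.replicate n w).flatten

@[simp] theorem rep_zero (w : List Bool) : rep 0 w = [] := rfl

theorem rep_succ (n : ℕ) (w : List Bool) : rep (n + 1) w = w ++ rep n w := rfl

theorem rep_add (m n : ℕ) (w : List Bool) : rep (m + n) w = rep m w ++ rep n w := by
  unfold rep
  rw [List.replicate_add, List.flatten_append]

theorem rep_succ' (n : ℕ) (w : List Bool) : rep (n + 1) w = rep n w ++ w := by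
  rw [rep_add, rep_succ, rep_zero, List.append_nil]

theorem rep_rep (m n : ℕ) (w : List Bool) : rep m (rep n w) = rep (m * n) w := by
  induction m with
  | zero => simp
  | succ m ih => rw [rep_succ, ih, Nat.succ_mul, Nat.add_comm, rep_add]

theorem rep_single (n : ℕ) (b : Bool) : rep n [b] = List.replicate n b := by
  induction n with
  | zero => rfl
  | succ n ih => rw [rep_succ, ih, List.replicate_succ]; rfl

/-- The rule for `each` and writing. -/
theorem each_em {a c t : K} (hct : c ≠ t) (hca : c ≠ a) (hta : t ≠ a) {p : Prog K} {B n : ℕ}
    {w : List Bool} {s : K → List Bool} (hc : s c = tt n) (ht : s t = [])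
    (hp : ∀ x z, Em a p (update (update s c x) t z) w B) :
    Em a (each c t p) s (rep n w) (n * (B + 4) + 2) := by
  intro v
  refine each_eval hct n (fun i => update s a ((rep i w).reverse ++ v)) ?_ ?_ ?_
  · intro i _ x z
    have h := hp x z ((rep i w).reverse ++ v)
    have e : ∀ y, update (update (update s c x) t z) a y =
        update (update (update s a y) c x) t z := by
      intro y
      funext k
      by_cases h1 : k = t
      · subst h1
        simp [hta]
      · by_cases h2 : k = c
        · subst h2
          simp [hca, h1]
        · by_cases h3 : k = a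
          · subst h3
            simp [h1, h2]
          · simp [h1, h2, h3]
    rw [e, e] at h
    refine EvalLe.cast h ?_ le_rfl
    rw [rep_succ', List.reverse_append, List.append_assoc]
  · funext k
    by_cases h1 : k = t
    · subst h1
      simp [ht, hta]
    · by_cases h2 : k = c
      · subst h2
        simp [h1, hc, hca]
      · simp [h1, h2]
  · funext k
    by_cases h1 : k = t
    · subst h1
      simp [hta, ht]
    · by_cases h2 : k = c
      · subst h2
        simp [hca, h1, hc]
      · simp [h1, h2]

/-- Move the content of `k` to `l`, in reverse order. -/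
def pour (k l : K) : Prog K := .drain k (.push l true) (.push l false)

theorem pour_eval {k l : K} (hkl : k ≠ l) (w : List Bool) (s : K → List Bool) (hs : s k = w) :
    EvalLe (pour k l) s (update (update s k []) l (w.reverse ++ s l)) (2 * w.length + 1) := by
  induction w generalizing s with
  | nil =>
    refine (EvalLe.drain_stop _ _ hs).cast ?_ (by simp)
    funext x
    by_cases hx : x = l
    · subst hx
      simp
    · by_cases hy : x = k
      · subst hy
        simp [hx, hs]
      · simp [hx, hy]
  | cons b w ih =>
    have h3 := EvalLe.push l b (update s k w)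
    have h4 := ih (update (update s k w) l (b :: (update s k w) l)) (by simp [hkl])
    have h5 : EvalLe (.drain k (.push l true) (.push l false)) s
        (update (update (update (update s k w) l (b :: update s k w l)) k []) l
          (w.reverse ++ update (update s k w) l (b :: update s k w l) l))
        (1 + (1 + (2 * w.length + 1))) := by
      cases b
      · exact EvalLe.drain_false (.push l true) hs h3 h4
      · exact EvalLe.drain_true (.push l false) hs h3 h4
    refine EvalLe.cast h5 ?_ (by simp only [List.length_cons]; omega)
    funext x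
    by_cases hx : x = l
    · subst hx
      simp [hkl.symm]
    · by_cases hy : x = k
      · subst hy
        simp [hx]
      · simp [hx, hy]

/-- Empty the stack `k`. -/
def wipe (k : K) : Prog K := .drain k .skip .skip

theorem wipe_eval {k : K} (w : List Bool) (s : K → List Bool) (hs : s k = w) :
    EvalLe (wipe k) s (update s k []) (2 * w.length + 1) := by
  induction w generalizing s with
  | nil =>
    refine (EvalLe.drain_stop _ _ hs).cast ?_ (by simp)
    rw [← hs]
    simp
  | cons b w ih =>
    have h3 := EvalLe.skip (update s k w)
    have h4 := ih (update s k w) (by simp)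
    have h5 : EvalLe (.drain k .skip .skip) s (update (update s k w) k [])
        (1 + (1 + (2 * w.length + 1))) := by
      cases b
      · exact EvalLe.drain_false .skip hs h3 h4
      · exact EvalLe.drain_true .skip hs h3 h4
    refine EvalLe.cast h5 ?_ (by simp only [List.length_cons]; omega)
    simp

end Pool.Agent.Lib.StackLang
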