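import Pool.Agent.Lib.StackLang.Macros

/-!
# Composition of a program with a machine

A program of the structured language that computes `f` and an arbitrary multi-stack machine that
computes `g` in polynomial time are composed to a machine that computes `g ∘ f` in polynomial
time.
-/

set_option autoImplicit false

namespace Pool.Agent.Lib.StackLang

open Turing Turing.TM2 Function

variable {K : Type} {M : FinTM2}

/-- The alphabets of the composite. -/
abbrev CA (K : Type) (M : FinTM2) : K ⊕ M.K → Type := Sum.elim (fun _ => Bool) M.Γ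

/-- The statements of the composite. -/
abbrev CSt (K : Type) (M : FinTM2) (Λ : Type) : Type := Stmt (CA K M) Λ (Option Bool × M.σ)

/-- The configurations of the composite. -/
abbrev CCf (K : Type) (M : FinTM2) (Λ : Type) : Type := Cfg (CA K M) Λ (Option Bool × M.σ)

/-- The joint store. -/
def joint (A : K → List Bool) (S : ∀ k, List (M.Γ k)) : ∀ k, List (CA K M k)
  | Sum.inl k => A k
  | Sum.inr k => S k

/-- A statement of the first machine. -/
def lift1 {Λ : Type} : St K Λ → CSt K M Λ
  | .push k f q => .push (Sum.inl k) (fun v => f v.1) (lift1 q)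
  | .peek k f q => .peek (Sum.inl k) (fun v o => (f v.1 o, v.2)) (lift1 q)
  | .pop k f q => .pop (Sum.inl k) (fun v o => (f v.1 o, v.2)) (lift1 q)
  | .load f q => .load (fun v => (f v.1, v.2)) (lift1 q)
  | .branch c q r => .branch (fun v => c v.1) (lift1 q) (lift1 r)
  | .goto l => .goto (fun v => l v.1)
  | .halt => .halt

/-- A statement of the second machine. -/
def lift2 {Λ : Type} (e : M.Λ → Λ) : TM2.Stmt M.Γ M.Λ M.σ → CSt K M Λ
  | .push k f q => .push (Sum.inr k) (fun v => f v.2) (lift2 e q)
  | .peek k f q => .peek (Sum.inr k) (fun v o => (v.1, f v.2 o)) (lift2 e q)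
  | .pop k f q => .pop (Sum.inr k) (fun v o => (v.1, f v.2 o)) (lift2 e q)
  | .load f q => .load (fun v => (v.1, f v.2)) (lift2 e q)
  | .branch c q r => .branch (fun v => c v.2) (lift2 e q) (lift2 e r)
  | .goto l => .goto (fun v => e (l v.2))
  | .halt => .halt

variable [DecidableEq K]

theorem update_joint_inl (A : K → List Bool) (S : ∀ k, List (M.Γ k)) (k : K)
    (x : List (CA K M (Sum.inl k))) :
    update (joint A S) (Sum.inl k) x = joint (update A k x) S := by
  funext q
  rcases q with q | q
  · by_cases h : q = k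
    · subst h
      rw [update_self]
      exact (update_self (β := fun _ : K => List Bool) q x A).symm
    · rw [update_of_ne (by simpa using h)]
      exact (update_of_ne (β := fun _ : K => List Bool) h x A).symm
  · rw [update_of_ne (by simp)]
    rfl

theorem update_joint_inr (A : K → List Bool) (S : ∀ k, List (M.Γ k)) (k : M.K)
    (x : List (CA K M (Sum.inr k))) :
    update (joint A S) (Sum.inr k) x = joint A (update S k x) := by
  funext q
  rcases q with q | q
  · rw [update_of_ne (by simp)]
    rfl
  · by_cases h : q = k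
    · subst h
      rw [update_self]
      exact (update_self (β := fun k : M.K => List (M.Γ k)) q x S).symm
    · rw [update_of_ne (by simpa using h)]
      exact (update_of_ne (β := fun k : M.K => List (M.Γ k)) h x S).symm

theorem stepAux_lift1 {Λ : Type} (q : St K Λ) (v : Option Bool) (w : M.σ) (A : K → List Bool)
    (S : ∀ k, List (M.Γ k)) : stepAux (lift1 q) (v, w) (joint A S) =
      (⟨(stepAux q v A).l, ((stepAux q v A).var, w), joint (stepAux q v A).stk S⟩ :
        CCf K M Λ) := by
  induction q generalizing v A with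
  | push k f q ih =>
    simp only [lift1, stepAux]
    rw [update_joint_inl, ih]
    rfl
  | peek k f q ih =>
    simp only [lift1, stepAux]
    rw [ih]
    rfl
  | pop k f q ih =>
    simp only [lift1, stepAux]
    rw [update_joint_inl, ih]
    rfl
  | load f q ih =>
    simp only [lift1, stepAux]
    rw [ih]
  | branch c q r ih1 ih2 =>
    simp only [lift1, stepAux]
    cases c v
    · exact ih2 v A
    · exact ih1 v A
  | goto l => rfl
  | halt => rfl

theorem stepAux_lift2 {Λ : Type} (e : M.Λ → Λ) (q : TM2.Stmt M.Γ M.Λ M.σ) (v : Option Bool)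
    (w : M.σ) (A : K → List Bool) (S : ∀ k, List (M.Γ k)) :
    stepAux (lift2 e q) (v, w) (joint A S) =
      (⟨(stepAux q w S).l.map e, (v, (stepAux q w S).var), joint A (stepAux q w S).stk⟩ :
        CCf K M Λ) := by
  induction q generalizing w S with
  | push k f q ih =>
    simp only [lift2, stepAux]
    rw [update_joint_inr, ih]
    rfl
  | peek k f q ih =>
    simp only [lift2, stepAux]
    rw [ih]
    rfl
  | pop k f q ih =>
    simp only [lift2, stepAux]
    rw [update_joint_inr, ih]
    rfl
  | load f q ih =>
    simp only [lift2, stepAux]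
    rw [ih]
  | branch c q r ih1 ih2 =>
    simp only [lift2, stepAux]
    cases c w
    · exact ih2 w S
    · exact ih1 w S
  | goto l => rfl
  | halt => rfl

/-- Exact runs of general machines. -/
def RunG {K Λ σ : Type} {Γ : K → Type} [DecidableEq K] (m : Λ → TM2.Stmt Γ Λ σ) (n : ℕ)
    (a b : Cfg Γ Λ σ) : Prop :=
  (flip bind (TM2.step m))^[n] (some a) = some b

theorem RunG.trans {K Λ σ : Type} {Γ : K → Type} [DecidableEq K] {m : Λ → TM2.Stmt Γ Λ σ}
    {i j : ℕ} {a b c : Cfg Γ Λ σ} (h1 : RunG m i a b) (h2 : RunG m j b c) :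
    RunG m (i + j) a c := by
  unfold RunG at *
  rw [add_comm, Function.iterate_add_apply, h1, h2]

theorem RunG.one {K Λ σ : Type} {Γ : K → Type} [DecidableEq K] {m : Λ → TM2.Stmt Γ Λ σ}
    {l : Λ} {v : σ} {S : ∀ k, List (Γ k)} {b : Cfg Γ Λ σ}
    (h : stepAux (m l) v S = b) : RunG m 1 ⟨some l, v, S⟩ b := by
  subst h
  rfl

theorem iter_none {K Λ σ : Type} {Γ : K → Type} [DecidableEq K] (m : Λ → TM2.Stmt Γ Λ σ)
    (n : ℕ) : (flip bind (TM2.step m))^[n] (none : Option (Cfg Γ Λ σ)) = none := by
  induction n with
  | zero => rfl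
  | succ n ih =>
    rw [Function.iterate_succ_apply]
    exact ih

theorem RunG.succ {K Λ σ : Type} {Γ : K → Type} [DecidableEq K] {m : Λ → TM2.Stmt Γ Λ σ}
    {n : ℕ} {l : Option Λ} {v : σ} {S : ∀ k, List (Γ k)} {b : Cfg Γ Λ σ}
    (h : RunG m (n + 1) ⟨l, v, S⟩ b) :
    ∃ l', l = some l' ∧ RunG m n (stepAux (m l') v S) b := by
  unfold RunG at h
  rw [Function.iterate_succ_apply] at h
  cases l with
  | none =>
    have h1 : flip bind (TM2.step m) (some (⟨none, v, S⟩ : Cfg Γ Λ σ)) = none := rfl
    rw [h1, iter_none] at h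
    cases h
  | some l' => exact ⟨l', rfl, h⟩

/-- Runs of the first machine. -/
theorem run_lift1 {Λ : Type} {m : Λ → CSt K M Λ} {M1 : Λ → St K Λ} {E : Set Λ}
    (hE : ∀ l ∈ E, m l = lift1 (M1 l)) (hE' : ∀ l, l ∉ E → M1 l = .halt) (w : M.σ)
    (S : ∀ k, List (M.Γ k)) (n : ℕ) : ∀ (l : Option Λ) (v v' : Option Bool) (l' : Λ)
    (A A' : K → List Bool),
    Run M1 n ⟨l, v, A⟩ ⟨some l', v', A'⟩ →
    RunG m n ⟨l, (v, w), joint A S⟩ ⟨some l', (v', w), joint A' S⟩ := by
  induction n with
  | zero =>
    intro l v v' l' A A' h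
    have h1 : (⟨l, v, A⟩ : Cf K Λ) = ⟨some l', v', A'⟩ := Option.some.inj h
    injection h1 with e1 e2 e3
    subst e1 e2 e3
    rfl
  | succ n ih =>
    intro l v v' l' A A' h
    obtain ⟨l1, rfl, h1⟩ := RunG.succ (m := M1) h
    by_cases hl : l1 ∈ E
    · have h2 := ih _ _ _ _ _ _ h1
      rw [add_comm]
      refine RunG.trans (RunG.one (b := ⟨(stepAux (M1 l1) v A).l,
        ((stepAux (M1 l1) v A).var, w), joint (stepAux (M1 l1) v A).stk S⟩) ?_) h2
      rw [hE l1 hl]
      exact stepAux_lift1 _ _ _ _ _
    · exfalso
      rw [hE' l1 hl] at h1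
      cases n with
      | zero =>
        have h3 : (⟨none, v, A⟩ : Cf K Λ) = ⟨some l', v', A'⟩ := Option.some.inj h1
        injection h3 with e1
        cases e1
      | succ n =>
        obtain ⟨l2, h4, _⟩ := RunG.succ (m := M1) h1
        cases h4

/-- Runs of the second machine. -/
theorem run_lift2 {Λ : Type} {m : Λ → CSt K M Λ} {e : M.Λ → Λ}
    (hm : ∀ l, m (e l) = lift2 e (M.m l)) (v : Option Bool) (A : K → List Bool) (n : ℕ) :
    ∀ (l : Option M.Λ) (w w' : M.σ) (l' : Option M.Λ) (S S' : ∀ k, List (M.Γ k)),
    RunG M.m n ⟨l, w, S⟩ ⟨l', w', S'⟩ →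
    RunG m n ⟨l.map e, (v, w), joint A S⟩ ⟨l'.map e, (v, w'), joint A S'⟩ := by
  induction n with
  | zero =>
    intro l w w' l' S S' h
    have h1 : (⟨l, w, S⟩ : Cfg M.Γ M.Λ M.σ) = ⟨l', w', S'⟩ := Option.some.inj h
    injection h1 with e1 e2 e3
    subst e1 e2 e3
    rfl
  | succ n ih =>
    intro l w w' l' S S' h
    obtain ⟨l1, rfl, h1⟩ := RunG.succ h
    have h2 := ih _ _ _ _ _ _ h1
    rw [add_comm]
    refine RunG.trans (RunG.one (b := ⟨(stepAux (M.m l1) w S).l.map e,
      (v, (stepAux (M.m l1) w S).var), joint A (stepAux (M.m l1) w S).stk⟩) ?_) h2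
    rw [hm l1]
    exact stepAux_lift2 _ _ _ _ _ _

/-- The program of the composite. -/
def compM (p : Prog K) (k : K) (M : FinTM2) (φ : M.Γ M.k₀ ≃ Bool) :
    Option (Lab p ⊕ M.Λ) → CSt K M (Option (Lab p ⊕ M.Λ))
  | some (Sum.inl l) => lift1 (stmt p (fun l => some (Sum.inl l)) none l)
  | some (Sum.inr l) => lift2 (fun l => some (Sum.inr l)) (M.m l)
  | none => .peek (Sum.inl k) (fun v o => (o, v.2)) (.branch (fun v => v.1.isNone)
      (.goto fun _ => some (Sum.inr M.main))
      (.pop (Sum.inl k) (fun v _ => v) (.push (Sum.inr M.k₀)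
        (fun v => φ.symm (v.1.getD false)) (.goto fun _ => none))))

theorem init_self (M : FinTM2) (acc : List (M.Γ M.k₀)) : (initList M acc).stk M.k₀ = acc := by
  unfold initList
  simp

theorem init_ne (M : FinTM2) (acc : List (M.Γ M.k₀)) {k : M.K} (h : k ≠ M.k₀) :
    (initList M acc).stk k = [] := by
  unfold initList
  simp [h]

theorem init_push (M : FinTM2) (acc : List (M.Γ M.k₀)) (a : M.Γ M.k₀) :
    update (initList M acc).stk M.k₀ (a :: (initList M acc).stk M.k₀) =
      (initList M (a :: acc)).stk := by
  rw [init_self]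
  funext k
  by_cases h : k = M.k₀
  · subst h
    rw [update_self, init_self]
  · rw [update_of_ne h]
    unfold initList
    simp [h]

theorem joint_transfer (A : K → List Bool) (S : ∀ k, List (M.Γ k)) (k : K) (u : List Bool)
    (a : M.Γ M.k₀) :
    update (update (joint A S) (Sum.inl k) u) (Sum.inr M.k₀)
      (a :: (update (joint A S) (Sum.inl k) u) (Sum.inr M.k₀)) =
      joint (update A k u) (update S M.k₀ (a :: S M.k₀)) := by
  have h1 := update_joint_inl A S k u
  rw [h1]
  exact update_joint_inr _ _ _ _

theorem transfer (p : Prog K) (k : K) (M : FinTM2) (φ : M.Γ M.k₀ ≃ Bool) (u : List Bool) :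
    ∀ (acc : List (M.Γ M.k₀)) (v : Option Bool),
    RunG (compM p k M φ) (u.length + 1)
      ⟨some none, (v, M.initialState), joint (only k u) (initList M acc).stk⟩
      ⟨some (some (Sum.inr M.main)), (none, M.initialState), joint (fun _ => [])
        (initList M (u.reverse.map φ.symm ++ acc)).stk⟩ := by
  induction u with
  | nil =>
    intro acc v
    refine RunG.one ?_
    have h1 : only k ([] : List Bool) = fun _ => [] := by
      funext q
      simp [only, Function.update_apply]
    rw [h1]
    rfl
  | cons b u ih =>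
    intro acc v
    have h1 := ih (φ.symm b :: acc) (some b)
    rw [List.length_cons, add_comm (u.length + 1) 1]
    have h2 : (b :: u).reverse.map φ.symm ++ acc = u.reverse.map φ.symm ++
        (φ.symm b :: acc) := by simp
    rw [h2]
    refine RunG.trans (RunG.one ?_) h1
    have h3 : joint (only k (b :: u)) (initList M acc).stk (Sum.inl k) = b :: u := by
      simp [joint, only]
    simp only [compM, stepAux]
    rw [h3]
    change (⟨some none, (some b, M.initialState), update (update (joint (only k (b :: u))
      (initList M acc).stk) (Sum.inl k) u) (Sum.inr M.k₀) (φ.symm b ::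
        (update (joint (only k (b :: u)) (initList M acc).stk) (Sum.inl k) u)
          (Sum.inr M.k₀))⟩ : CCf K M (Option (Lab p ⊕ M.Λ))) = _
    refine congrArg (fun X => (⟨some none, (some b, M.initialState), X⟩ :
      CCf K M (Option (Lab p ⊕ M.Λ)))) ?_
    refine (joint_transfer (only k (b :: u)) (initList M acc).stk k u (φ.symm b)).trans ?_
    have h4 : update (only k (b :: u)) k u = only k u := by simp [only]
    have h5 := init_push M acc (φ.symm b)
    rw [h4]
    exact congrArg (joint (only k u)) h5

/-- The composite machine. -/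
noncomputable def compTM [Fintype K] (p : Prog K) (k₀ k : K) (M : FinTM2)
    (φ : M.Γ M.k₀ ≃ Bool) : FinTM2 where
  K := K ⊕ M.K
  kDecidableEq := inferInstance
  kFin := letI := M.kFin; inferInstance
  k₀ := Sum.inl k₀
  k₁ := Sum.inr M.k₁
  Γ := CA K M
  Λ := Option (Lab p ⊕ M.Λ)
  main := some (Sum.inl (entry p))
  ΛFin := letI := labFin p; letI := M.ΛFin; inferInstance
  σ := Option Bool × M.σ
  initialState := (none, M.initialState)
  σFin := letI := M.σFin; inferInstance
  Γk₀Fin := inferInstanceAs (Fintype Bool)
  m := compM p k M φ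

theorem compTM_init [Fintype K] (p : Prog K) (k₀ k : K) (M : FinTM2)
    (φ : M.Γ M.k₀ ≃ Bool) (x : List Bool) : initList (compTM p k₀ k M φ) x =
      (⟨some (some (Sum.inl (entry p))), (none, M.initialState),
        joint (only k₀ x) (initList M []).stk⟩ : CCf K M (Option (Lab p ⊕ M.Λ))) := by
  have e : (initList (compTM p k₀ k M φ) x).stk =
      joint (only k₀ x) (initList M []).stk := by
    funext q
    rcases q with q | q
    · by_cases hq : q = k₀
      · subst hq
        have h1 := init_self (compTM p q k M φ) x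
        refine h1.trans ?_
        change x = only q x q
        simp [only]
      · have h2 : (joint (only k₀ x) (initList M []).stk) (Sum.inl q) = [] := by
          simp [joint, only, hq]
        rw [h2]
        exact dif_neg (by
          intro h
          exact hq (Sum.inl_injective h))
    · have h2 : (joint (only k₀ x) (initList M []).stk) (Sum.inr q) = [] := by
        change (initList M []).stk q = []
        by_cases hq : q = M.k₀
        · subst hq
          exact init_self M []
        · exact dif_neg hq
      rw [h2]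
      refine init_ne (compTM p k₀ k M φ) x (k := Sum.inr q) ?_
      intro h
      have h3 : (Sum.inr q : K ⊕ M.K) = Sum.inl k₀ := h
      cases h3
  exact congrArg (fun S => (⟨some (some (Sum.inl (entry p))), (none, M.initialState), S⟩ :
    CCf K M (Option (Lab p ⊕ M.Λ)))) e

theorem halt_ne (M : FinTM2) (acc : List (M.Γ M.k₁)) {k : M.K} (h : k ≠ M.k₁) :
    (haltList M acc).stk k = [] := by
  unfold haltList
  simp [h]

theorem halt_self (M : FinTM2) (acc : List (M.Γ M.k₁)) : (haltList M acc).stk M.k₁ = acc := by
  unfold haltList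
  simp

theorem compTM_halt [Fintype K] (p : Prog K) (k₀ k : K) (M : FinTM2)
    (φ : M.Γ M.k₀ ≃ Bool) (x : List (M.Γ M.k₁)) : haltList (compTM p k₀ k M φ) x =
      (⟨none, (none, M.initialState),
        joint (fun _ => []) (haltList M x).stk⟩ : CCf K M (Option (Lab p ⊕ M.Λ))) := by
  have e : (haltList (compTM p k₀ k M φ) x).stk = joint (fun _ => []) (haltList M x).stk := by
    funext q
    rcases q with q | q
    · refine halt_ne (compTM p k₀ k M φ) x (k := Sum.inl q) ?_
      intro h
      have h3 : (Sum.inl q : K ⊕ M.K) = Sum.inr M.k₁ := h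
      cases h3
    · by_cases hq : q = M.k₁
      · subst hq
        have h1 := halt_self (compTM p k₀ k M φ) x
        refine h1.trans ?_
        exact (halt_self M x).symm
      · have h2 : (joint (fun _ : K => ([] : List Bool)) (haltList M x).stk) (Sum.inr q) =
            [] := by
          change (haltList M x).stk q = []
          exact dif_neg hq
        rw [h2]
        exact dif_neg (by
          intro h
          exact hq (Sum.inr_injective h))
  exact congrArg (fun S => (⟨none, (none, M.initialState), S⟩ :
    CCf K M (Option (Lab p ⊕ M.Λ)))) e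

theorem eval_mono (p : Polynomial ℕ) {a b : ℕ} (h : a ≤ b) : p.eval a ≤ p.eval b := by
  rw [Polynomial.eval_eq_sum, Polynomial.eval_eq_sum]
  exact Finset.sum_le_sum fun i _ => Nat.mul_le_mul_left _ (Nat.pow_le_pow_left h _)

/-- The composition of a function computed by a program of the structured language in
polynomial time and a function computed by a machine in polynomial time is computed by a machine
in polynomial time. -/
theorem polyTime_comp [Fintype K] {α β γ Γc : Type} {ea : α → List Bool} {eb : β → List Bool}
    {ec : γ → List Γc} {f : α → β} {g : β → γ} (p : Prog K) {k₀ k₁ : K} (hk : k₀ ≠ k₁)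
    (P : Polynomial ℕ)
    (h : ∀ a, ∃ n ≤ P.eval (ea a).length, Eval p (only k₀ (ea a)) (only k₁ (eb (f a))) n)
    (hg : Nonempty (TM2ComputableInPolyTime eb ec g)) :
    Nonempty (TM2ComputableInPolyTime ea ec (fun a => g (f a))) := by
  obtain ⟨G⟩ := hg
  choose n hn he using h
  have key : ∀ a, ∃ i ≤ (P + (2 * P + 1) + (P + 1) + G.time.comp P).eval (ea a).length,
      RunG (compM (.seq p (pour k₁ k₀)) k₀ G.tm G.inputAlphabet) i
        (⟨some (some (Sum.inl (entry (.seq p (pour k₁ k₀))))), (none, G.tm.initialState),
          joint (only k₀ (ea a)) (initList G.tm []).stk⟩ :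
          CCf K G.tm (Option (Lab (.seq p (pour k₁ k₀)) ⊕ G.tm.Λ)))
        (⟨none, (none, G.tm.initialState),
          joint (fun _ => []) (haltList G.tm ((ec (g (f a))).map
            G.outputAlphabet.invFun)).stk⟩ :
          CCf K G.tm (Option (Lab (.seq p (pour k₁ k₀)) ⊕ G.tm.Λ))) := by
    intro a
    obtain ⟨w, hw⟩ : ∃ w, w = eb (f a) := ⟨_, rfl⟩
    have h1 := he a
    rw [← hw] at h1
    have hlen : w.length ≤ P.eval (ea a).length := by
      have h2 := h1.length_le k₁
      have h3 : only k₀ (ea a) k₁ = [] := by simp [only, hk.symm]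
      have h4 : only k₁ w k₁ = w := by simp [only]
      rw [h3, h4, List.length_nil, Nat.zero_add] at h2
      exact h2.trans (hn a)
    obtain ⟨j, hj, h5⟩ := pour_eval (K := K) (k := k₁) (l := k₀) hk.symm w (only k₁ w)
      (by simp [only])
    have h6 : Eval (pour k₁ k₀) (only k₁ w) (only k₀ w.reverse) j := by
      have e : update (update (only k₁ w) k₁ []) k₀ (w.reverse ++ only k₁ w k₀) =
          only k₀ w.reverse := by
        funext q
        by_cases hq1 : q = k₀
        · subst hq1
          simp [only, hk]
        · by_cases hq2 : q = k₁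
          · subst hq2
            simp [only, hq1]
          · simp [only, hq1]
      rw [← e]
      exact h5
    have h7 := Eval.seq h1 h6
    obtain ⟨v, h8⟩ := run_of_eval (M := fun l : Option (Lab (.seq p (pour k₁ k₀)) ⊕ G.tm.Λ) =>
      match l with
      | some (Sum.inl l) => stmt (.seq p (pour k₁ k₀)) (fun l => some (Sum.inl l)) none l
      | _ => .halt) h7 (fun l => some (Sum.inl l)) none (fun l => rfl) none
    have h9 := run_lift1 (K := K) (M := G.tm)
      (m := compM (.seq p (pour k₁ k₀)) k₀ G.tm G.inputAlphabet)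
      (E := Set.range fun l => some (Sum.inl l)) (by
        rintro l ⟨l', rfl⟩
        rfl) (by
        intro l hl
        rcases l with _ | l | l
        · rfl
        · exact absurd ⟨l, rfl⟩ hl
        · rfl) G.tm.initialState (initList G.tm []).stk _ _ _ _ _ _ _ h8
    have h10 := transfer (.seq p (pour k₁ k₀)) k₀ G.tm G.inputAlphabet w.reverse [] v
    rw [List.reverse_reverse, List.append_nil, List.length_reverse] at h10
    have h11 := G.outputsFun (f a)
    obtain ⟨⟨i, hi⟩, hi'⟩ := h11
    have h12 := run_lift2 (K := K) (M := G.tm)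
      (m := compM (.seq p (pour k₁ k₀)) k₀ G.tm G.inputAlphabet)
      (e := fun l => some (Sum.inr l)) (fun l => rfl) none (fun _ => []) i
      (some G.tm.main) G.tm.initialState G.tm.initialState none
      (initList G.tm ((eb (f a)).map G.inputAlphabet.invFun)).stk
      (haltList G.tm ((ec (g (f a))).map G.outputAlphabet.invFun)).stk hi
    rw [← hw] at h12
    refine ⟨_, ?_, (RunG.trans h9 (RunG.trans h10 h12))⟩
    simp only at hi'
    rw [← hw] at hi'
    have h13 := hi'.trans (eval_mono G.time hlen)
    have h14 := hn a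
    simp only [Polynomial.eval_add, Polynomial.eval_mul, Polynomial.eval_one,
      Polynomial.eval_comp, Polynomial.eval_ofNat]
    omega
  choose i hi hr using key
  refine ⟨{
    tm := compTM (.seq p (pour k₁ k₀)) k₀ k₀ G.tm G.inputAlphabet
    inputAlphabet := Equiv.refl Bool
    outputAlphabet := G.outputAlphabet
    time := P + (2 * P + 1) + (P + 1) + G.time.comp P
    outputsFun := fun a => ⟨⟨i a, ?_⟩, hi a⟩ }⟩
  have e : ∀ (x : List Bool), x = ea a →
      (flip bind (compTM (.seq p (pour k₁ k₀)) k₀ k₀ G.tm G.inputAlphabet).step)^[i a]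
      (some (initList (compTM (.seq p (pour k₁ k₀)) k₀ k₀ G.tm G.inputAlphabet) x)) =
      some (haltList (compTM (.seq p (pour k₁ k₀)) k₀ k₀ G.tm G.inputAlphabet)
        ((ec (g (f a))).map G.outputAlphabet.invFun)) := by
    rintro x rfl
    have e1 := compTM_init (.seq p (pour k₁ k₀)) k₀ k₀ G.tm G.inputAlphabet (ea a)
    have e2 := compTM_halt (.seq p (pour k₁ k₀)) k₀ k₀ G.tm G.inputAlphabet
      ((ec (g (f a))).map G.outputAlphabet.invFun)
    exact Eq.trans (congrArg (fun c => (flip bind (compTM (.seq p (pour k₁ k₀)) k₀ k₀ G.tm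
      G.inputAlphabet).step)^[i a] (some c)) e1) (Eq.trans (hr a) (congrArg some e2.symm))
  exact e _ (List.map_id _)

/-- The negation of a decision problem that can be decided in polynomial time. -/
theorem polyTime_not {α : Type} {Γa : Type} {ea : α → List Γa} {g : α → Bool}
    (hg : Nonempty (TM2ComputableInPolyTime ea (fun b : Bool => [b]) g)) :
    Nonempty (TM2ComputableInPolyTime ea (fun b : Bool => [b]) (fun a => !(g a))) := by
  obtain ⟨G⟩ := hg
  refine ⟨{
    tm := G.tm
    inputAlphabet := G.inputAlphabet
    outputAlphabet := G.outputAlphabet.trans Equiv.boolNot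
    time := G.time
    outputsFun := fun a => ?_ }⟩
  have h := G.outputsFun a
  have e : List.map (G.outputAlphabet.trans Equiv.boolNot).invFun [!(g a)] =
      List.map G.outputAlphabet.invFun [g a] := by
    simp
  rw [e]
  exact h

end Pool.Agent.Lib.StackLang
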