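import Mathlib

/-!
# A structured language on Boolean stacks, compiled to the multi-stack machines `TM2`

Programs are built from `push`, `pop`, sequencing, a case distinction on the top of a stack and two
kinds of loops.  `Eval p s t n` means that the program `p` started in the store `s` ends in the
store `t` after exactly `n` steps.  The main theorem `polyTime_of_eval` turns such statements, with
a polynomial bound for `n`, into `Turing.TM2ComputableInPolyTime`.
-/

set_option autoImplicit false

namespace Pool.Agent.Lib.StackLang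

open Turing Turing.TM2

/-- Structured programs on Boolean stacks indexed by `K`. -/
inductive Prog (K : Type) : Type
  /-- do nothing -/
  | skip : Prog K
  /-- push the bit `b` on the stack `k` -/
  | push (k : K) (b : Bool) : Prog K
  /-- remove the top of the stack `k` -/
  | pop (k : K) : Prog K
  /-- first `p`, then `q` -/
  | seq (p q : Prog K) : Prog K
  /-- run `p` if the stack `k` is empty, `q` if its top is `false`, `r` if its top is `true` -/
  | ite (k : K) (p q r : Prog K) : Prog K
  /-- while the top of the stack `k` is `true`: remove it and run `p` -/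
  | loop (k : K) (p : Prog K) : Prog K
  /-- while the stack `k` is not empty: remove its top and run `p` if it was `true` and `q` if it
  was `false` -/
  | drain (k : K) (p q : Prog K) : Prog K

variable {K : Type} [DecidableEq K]

/-- `Eval p s t n`: the program `p` turns the store `s` into the store `t` in `n` steps. -/
inductive Eval : Prog K → (K → List Bool) → (K → List Bool) → ℕ → Prop
  | skip (s : K → List Bool) : Eval .skip s s 1
  | push (k : K) (b : Bool) (s : K → List Bool) :
      Eval (.push k b) s (Function.update s k (b :: s k)) 1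
  | pop (k : K) (s : K → List Bool) : Eval (.pop k) s (Function.update s k (s k).tail) 1
  | seq {p q : Prog K} {s t u : K → List Bool} {m n : ℕ} : Eval p s t m → Eval q t u n →
      Eval (.seq p q) s u (m + n)
  | ite_none {k : K} {p : Prog K} (q r : Prog K) {s t : K → List Bool} {m : ℕ} :
      (s k).head? = none → Eval p s t m → Eval (.ite k p q r) s t (1 + m)
  | ite_false {k : K} (p : Prog K) {q : Prog K} (r : Prog K) {s t : K → List Bool} {m : ℕ} :
      (s k).head? = some false → Eval q s t m → Eval (.ite k p q r) s t (1 + m)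
  | ite_true {k : K} (p q : Prog K) {r : Prog K} {s t : K → List Bool} {m : ℕ} :
      (s k).head? = some true → Eval r s t m → Eval (.ite k p q r) s t (1 + m)
  | loop_stop {k : K} (p : Prog K) {s : K → List Bool} : (s k).head? ≠ some true →
      Eval (.loop k p) s s 1
  | loop_step {k : K} {p : Prog K} {s t u : K → List Bool} {m n : ℕ} :
      (s k).head? = some true → Eval p (Function.update s k (s k).tail) t m →
      Eval (.loop k p) t u n → Eval (.loop k p) s u (1 + (m + n))
  | drain_stop {k : K} (p q : Prog K) {s : K → List Bool} : (s k).head? = none →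
      Eval (.drain k p q) s s 1
  | drain_true {k : K} {p : Prog K} (q : Prog K) {s t u : K → List Bool} {m n : ℕ} :
      (s k).head? = some true → Eval p (Function.update s k (s k).tail) t m →
      Eval (.drain k p q) t u n → Eval (.drain k p q) s u (1 + (m + n))
  | drain_false {k : K} (p : Prog K) {q : Prog K} {s t u : K → List Bool} {m n : ℕ} :
      (s k).head? = some false → Eval q (Function.update s k (s k).tail) t m →
      Eval (.drain k p q) t u n → Eval (.drain k p q) s u (1 + (m + n))

/-- A program that runs for `n` steps adds at most `n` letters to a stack. -/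
theorem Eval.length_le {p : Prog K} {s t : K → List Bool} {n : ℕ} (h : Eval p s t n) (k : K) :
    (t k).length ≤ (s k).length + n := by
  have key : ∀ (s : K → List Bool) (j : K), (Function.update s j (s j).tail k).length ≤
      (s k).length := by
    intro s j
    by_cases hj : k = j
    · subst hj
      simp
    · simp [hj]
  induction h with
  | skip s => exact Nat.le_add_right _ _
  | push j b s =>
    by_cases hj : k = j
    · subst hj
      simp
    · simp [hj]
  | pop j s => exact (key s j).trans (Nat.le_add_right _ _)
  | seq _ _ ih1 ih2 => omega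
  | ite_none _ _ _ _ ih => omega
  | ite_false _ _ _ _ ih => omega
  | ite_true _ _ _ _ ih => omega
  | loop_stop _ _ => exact Nat.le_add_right _ _
  | @loop_step j p s t u m n _ _ _ ih1 ih2 =>
    have := key s j
    omega
  | drain_stop _ _ _ => exact Nat.le_add_right _ _
  | @drain_true j p q s t u m n _ _ _ ih1 ih2 =>
    have := key s j
    omega
  | @drain_false j p q s t u m n _ _ _ ih1 ih2 =>
    have := key s j
    omega

/-! ### Compilation -/

/-- The labels of a compiled program. -/
def Lab : Prog K → Type
  | .skip => Unit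
  | .push _ _ => Unit
  | .pop _ => Unit
  | .seq p q => Lab p ⊕ Lab q
  | .ite _ p q r => Option (Lab p ⊕ (Lab q ⊕ Lab r))
  | .loop _ p => Option (Lab p)
  | .drain _ p q => Option (Lab p ⊕ Lab q)

/-- There are finitely many labels. -/
@[instance_reducible]
noncomputable def labFin : (p : Prog K) → Fintype (Lab p)
  | .skip => inferInstanceAs (Fintype Unit)
  | .push _ _ => inferInstanceAs (Fintype Unit)
  | .pop _ => inferInstanceAs (Fintype Unit)
  | .seq p q =>
    letI := labFin p
    letI := labFin q
    inferInstanceAs (Fintype (Lab p ⊕ Lab q))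
  | .ite _ p q r =>
    letI := labFin p
    letI := labFin q
    letI := labFin r
    inferInstanceAs (Fintype (Option (Lab p ⊕ (Lab q ⊕ Lab r))))
  | .loop _ p =>
    letI := labFin p
    inferInstanceAs (Fintype (Option (Lab p)))
  | .drain _ p q =>
    letI := labFin p
    letI := labFin q
    inferInstanceAs (Fintype (Option (Lab p ⊕ Lab q)))

/-- The first label. -/
def entry : (p : Prog K) → Lab p
  | .skip => ()
  | .push _ _ => ()
  | .pop _ => ()
  | .seq p _ => Sum.inl (entry p)
  | .ite _ _ _ _ => (none : Option _)
  | .loop _ _ => (none : Option _)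
  | .drain _ _ _ => (none : Option _)

/-- Statements. -/
abbrev St (K Λ : Type) : Type := Stmt (fun _ : K => Bool) Λ (Option Bool)

/-- Jump. -/
def jmp {Λ : Type} (l : Λ) : St K Λ := Stmt.goto fun _ => l

/-- The statement of a label; `e` embeds the labels, `nx` is the label after the program. -/
def stmt {Λ : Type} : (p : Prog K) → (Lab p → Λ) → Λ → Lab p → St K Λ
  | .skip, _, nx, _ => jmp nx
  | .push k b, _, nx, _ => Stmt.push k (fun _ => b) (jmp nx)
  | .pop k, _, nx, _ => Stmt.pop k (fun v _ => v) (jmp nx)
  | .seq p q, e, nx, l =>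
    match l with
    | Sum.inl l => stmt p (fun l => e (Sum.inl l)) (e (Sum.inr (entry q))) l
    | Sum.inr l => stmt q (fun l => e (Sum.inr l)) nx l
  | .ite k p q r, e, nx, l =>
    match l with
    | none => Stmt.peek k (fun _ o => o) (Stmt.branch (fun v => v.isNone)
        (jmp (e (some (Sum.inl (entry p)))))
        (Stmt.branch (fun v => v.getD false) (jmp (e (some (Sum.inr (Sum.inr (entry r))))))
          (jmp (e (some (Sum.inr (Sum.inl (entry q))))))))
    | some (Sum.inl l) => stmt p (fun l => e (some (Sum.inl l))) nx l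
    | some (Sum.inr (Sum.inl l)) => stmt q (fun l => e (some (Sum.inr (Sum.inl l)))) nx l
    | some (Sum.inr (Sum.inr l)) => stmt r (fun l => e (some (Sum.inr (Sum.inr l)))) nx l
  | .loop k p, e, nx, l =>
    match l with
    | none => Stmt.peek k (fun _ o => o) (Stmt.branch (fun v => v.getD false)
        (Stmt.pop k (fun v _ => v) (jmp (e (some (entry p))))) (jmp nx))
    | some l => stmt p (fun l => e (some l)) (e none) l
  | .drain k p q, e, nx, l =>
    match l with
    | none => Stmt.peek k (fun _ o => o) (Stmt.branch (fun v => v.isNone) (jmp nx)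
        (Stmt.pop k (fun v _ => v) (Stmt.branch (fun v => v.getD false)
          (jmp (e (some (Sum.inl (entry p))))) (jmp (e (some (Sum.inr (entry q))))))))
    | some (Sum.inl l) => stmt p (fun l => e (some (Sum.inl l))) (e none) l
    | some (Sum.inr l) => stmt q (fun l => e (some (Sum.inr l))) (e none) l

/-! ### Runs -/

section run

variable {Λ : Type}

/-- Configurations. -/
abbrev Cf (K Λ : Type) : Type := Cfg (fun _ : K => Bool) Λ (Option Bool)

/-- `Run M n a b`: the machine `M` goes from `a` to `b` in exactly `n` steps. -/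
def Run (M : Λ → St K Λ) (n : ℕ) (a b : Cf K Λ) : Prop :=
  (flip bind (TM2.step M))^[n] (some a) = some b

theorem Run.refl (M : Λ → St K Λ) (a : Cf K Λ) : Run M 0 a a := rfl

theorem Run.trans {M : Λ → St K Λ} {m n : ℕ} {a b c : Cf K Λ} (h1 : Run M m a b)
    (h2 : Run M n b c) : Run M (m + n) a c := by
  unfold Run at *
  rw [add_comm, Function.iterate_add_apply, h1, h2]

theorem Run.one {M : Λ → St K Λ} {l : Λ} {v : Option Bool} {S : K → List Bool} {b : Cf K Λ}
    (h : stepAux (M l) v S = b) : Run M 1 ⟨some l, v, S⟩ b := by
  subst h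
  rfl

theorem run_of_eval {M : Λ → St K Λ} {p : Prog K} {s t : K → List Bool} {n : ℕ}
    (h : Eval p s t n) : ∀ (e : Lab p → Λ) (nx : Λ), (∀ l, M (e l) = stmt p e nx l) →
    ∀ v : Option Bool, ∃ w : Option Bool,
      Run M n ⟨some (e (entry p)), v, s⟩ ⟨some nx, w, t⟩ := by
  induction h with
  | skip s =>
    intro e nx hM v
    refine ⟨v, Run.one ?_⟩
    rw [hM]
    rfl
  | push k b s =>
    intro e nx hM v
    refine ⟨v, Run.one ?_⟩
    rw [hM]
    rfl
  | pop k s =>
    intro e nx hM v
    refine ⟨v, Run.one ?_⟩
    rw [hM]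
    rfl
  | @seq p q s t u m n h1 h2 ih1 ih2 =>
    intro e nx hM v
    obtain ⟨w, hw⟩ := ih1 (fun l => e (Sum.inl l)) (e (Sum.inr (entry q)))
      (fun l => hM (Sum.inl l)) v
    obtain ⟨w', hw'⟩ := ih2 (fun l => e (Sum.inr l)) nx (fun l => hM (Sum.inr l)) w
    exact ⟨w', hw.trans hw'⟩
  | @ite_none k p q r s t m h1 h2 ih =>
    intro e nx hM v
    obtain ⟨w, hw⟩ := ih (fun l => e (some (Sum.inl l))) nx (fun l => hM (some (Sum.inl l)))
      (s k).head?
    refine ⟨w, Run.trans (Run.one ?_) hw⟩
    rw [hM]
    simp [stmt, entry, h1, jmp]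
  | @ite_false k p q r s t m h1 h2 ih =>
    intro e nx hM v
    obtain ⟨w, hw⟩ := ih (fun l => e (some (Sum.inr (Sum.inl l)))) nx
      (fun l => hM (some (Sum.inr (Sum.inl l)))) (s k).head?
    refine ⟨w, Run.trans (Run.one ?_) hw⟩
    rw [hM]
    simp [stmt, entry, h1, jmp]
  | @ite_true k p q r s t m h1 h2 ih =>
    intro e nx hM v
    obtain ⟨w, hw⟩ := ih (fun l => e (some (Sum.inr (Sum.inr l)))) nx
      (fun l => hM (some (Sum.inr (Sum.inr l)))) (s k).head?
    refine ⟨w, Run.trans (Run.one ?_) hw⟩
    rw [hM]
    simp [stmt, entry, h1, jmp]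
  | @loop_stop k p s h1 =>
    intro e nx hM v
    refine ⟨(s k).head?, Run.one ?_⟩
    rw [hM]
    have h2 : (s k).head?.getD false = false := by
      rcases h3 : (s k).head? with _ | b
      · rfl
      · cases b
        · rfl
        · exact absurd h3 h1
    simp [stmt, entry, h2, jmp]
  | @loop_step k p s t u m n h1 h2 h3 ih1 ih2 =>
    intro e nx hM v
    obtain ⟨w, hw⟩ := ih1 (fun l => e (some l)) (e none) (fun l => hM (some l)) (s k).head?
    obtain ⟨w', hw'⟩ := ih2 e nx hM w
    refine ⟨w', Run.trans (Run.one ?_) (Run.trans hw hw')⟩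
    rw [hM]
    simp [stmt, entry, h1, jmp]
  | @drain_stop k p q s h1 =>
    intro e nx hM v
    refine ⟨(s k).head?, Run.one ?_⟩
    rw [hM]
    simp [stmt, entry, h1, jmp]
  | @drain_true k p q s t u m n h1 h2 h3 ih1 ih2 =>
    intro e nx hM v
    obtain ⟨w, hw⟩ := ih1 (fun l => e (some (Sum.inl l))) (e none)
      (fun l => hM (some (Sum.inl l))) (s k).head?
    obtain ⟨w', hw'⟩ := ih2 e nx hM w
    refine ⟨w', Run.trans (Run.one ?_) (Run.trans hw hw')⟩
    rw [hM]
    simp [stmt, entry, h1, jmp]
  | @drain_false k p q s t u m n h1 h2 h3 ih1 ih2 =>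
    intro e nx hM v
    obtain ⟨w, hw⟩ := ih1 (fun l => e (some (Sum.inr l))) (e none)
      (fun l => hM (some (Sum.inr l))) (s k).head?
    obtain ⟨w', hw'⟩ := ih2 e nx hM w
    refine ⟨w', Run.trans (Run.one ?_) (Run.trans hw hw')⟩
    rw [hM]
    simp [stmt, entry, h1, jmp]

end run

/-! ### The bundled machine -/

/-- The store with content `l` in the stack `k` and all other stacks empty. -/
def only (k : K) (l : List Bool) : K → List Bool := Function.update (fun _ => []) k l

/-- The machine of a program. -/
noncomputable def tm [Fintype K] (p : Prog K) (k₀ k₁ : K) : FinTM2 where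
  K := K
  k₀ := k₀
  k₁ := k₁
  Γ _ := Bool
  Λ := Option (Lab p)
  main := some (entry p)
  ΛFin := letI := labFin p; inferInstance
  σ := Option Bool
  initialState := none
  Γk₀Fin := inferInstance
  m l := match l with
    | some l => stmt p some none l
    | none => Stmt.load (fun _ => none) Stmt.halt

theorem dite_case (k k₀ : K) (d : Decidable (k = k₀)) (x : List Bool)
    (F : k = k₀ → List Bool) (hF : ∀ h, F h = x) :
    (@dite (List Bool) (k = k₀) d F (fun _ => [])) = only k₀ x k := by
  by_cases hk : k = k₀
  · rw [dif_pos hk, hF hk, hk]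
    simp [only]
  · rw [dif_neg hk]
    simp [only, hk]

theorem outputs [Fintype K] (p : Prog K) (k₀ k₁ : K) {x y : List Bool} {n : ℕ}
    (h : Eval p (only k₀ x) (only k₁ y) n) :
    (flip bind (tm p k₀ k₁).step)^[n + 1] (some (initList (tm p k₀ k₁) x)) =
      some (haltList (tm p k₀ k₁) y) := by
  have h1 : initList (tm p k₀ k₁) x =
      (⟨some (some (entry p)), none, only k₀ x⟩ : Cf K (Option (Lab p))) := by
    unfold initList
    have e : (fun k : K => @dite (List Bool) (k = k₀)
        ((tm p k₀ k₁).kDecidableEq k k₀)
        (fun _ => x) fun _ => []) = only k₀ x := by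
      funext k
      exact dite_case k k₀ _ x _ (fun h => rfl)
    exact congrArg (fun S => (⟨some (some (entry p)), none, S⟩ : Cf K (Option (Lab p)))) e
  have h2 : haltList (tm p k₀ k₁) y = (⟨none, none, only k₁ y⟩ : Cf K (Option (Lab p))) := by
    unfold haltList
    have e : (fun k : K => @dite (List Bool) (k = k₁)
        ((tm p k₀ k₁).kDecidableEq k k₁)
        (fun _ => y) fun _ => []) = only k₁ y := by
      funext k
      exact dite_case k k₁ _ y _ (fun h => rfl)
    exact congrArg (fun S => (⟨none, none, S⟩ : Cf K (Option (Lab p)))) e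
  obtain ⟨w, hw⟩ := run_of_eval (M := (tm p k₀ k₁).m) h some none (fun l => rfl) none
  rw [h1, h2]
  have h3 : Run (tm p k₀ k₁).m 1 (⟨some none, w, only k₁ y⟩ : Cf K (Option (Lab p)))
      ⟨none, none, only k₁ y⟩ := Run.one rfl
  exact hw.trans h3

/-- Programs give functions computable in polynomial time. -/
theorem polyTime_of_eval [Fintype K] {α β : Type} {ea : α → List Bool} {eb : β → List Bool}
    {f : α → β} (p : Prog K) (k₀ k₁ : K) (P : Polynomial ℕ)
    (h : ∀ a, ∃ n ≤ P.eval (ea a).length, Eval p (only k₀ (ea a)) (only k₁ (eb (f a))) n) :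
    Nonempty (TM2ComputableInPolyTime ea eb f) := by
  choose n hn he using h
  refine ⟨{
    tm := tm p k₀ k₁
    inputAlphabet := Equiv.refl Bool
    outputAlphabet := Equiv.refl Bool
    time := P + 1
    outputsFun := fun a => ?_ }⟩
  have h1 := outputs p k₀ k₁ (he a)
  refine ⟨⟨n a + 1, ?_⟩, ?_⟩
  · have e : ∀ x y : List Bool, x = ea a → y = eb (f a) →
        (flip bind (tm p k₀ k₁).step)^[n a + 1] (some (initList (tm p k₀ k₁) x)) =
        some (haltList (tm p k₀ k₁) y) := by
      rintro x y rfl rfl
      exact h1
    exact e _ _ (List.map_id _) (List.map_id _)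
  · rw [Polynomial.eval_add, Polynomial.eval_one]
    exact Nat.add_le_add_right (hn a) 1

end Pool.Agent.Lib.StackLang
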